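import Pool.Agent.Q51.ZC.Stm2

/-! Project ZC, job APX: approximation by rational polynomials. -/

set_option autoImplicit false

namespace Pool.Agent.Q257.ZC

open Polynomial Finset
open Pool.Agent.Q51.ZC

/-- an element fixed by the automorphisms which fix `ρ` is a polynomial in `ρ` -/
theorem fixed_poly (l : ℕ) [Fact l.Prime] (ρ y : Om l)
    (hy : ∀ g : Om l ≃ₐ[ℚ_[l]] Om l, g ρ = ρ → g y = y) : ∃ p : ℚ_[l][X], aeval ρ p = y := by
  have h0 : IsGalois ℚ_[l] (Om l) := IsAlgClosure.isGalois ℚ_[l] (Om l)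
  have h1 : y ∈ IntermediateField.fixedField
      (IntermediateField.fixingSubgroup (IntermediateField.adjoin ℚ_[l] {ρ})) := by
    rw [IntermediateField.mem_fixedField_iff]
    intro g hg
    refine hy g ?_
    rw [IntermediateField.mem_fixingSubgroup_iff] at hg
    exact hg ρ (IntermediateField.mem_adjoin_simple_self ℚ_[l] ρ)
  rw [InfiniteGalois.fixedField_fixingSubgroup] at h1
  have h2 : y ∈ (IntermediateField.adjoin ℚ_[l] {ρ}).toSubalgebra := h1
  rw [IntermediateField.adjoin_simple_toSubalgebra_of_isAlgebraic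
    (Algebra.IsAlgebraic.isAlgebraic ρ), Algebra.adjoin_singleton_eq_range_aeval] at h2
  obtain ⟨p, hp⟩ := h2
  exact ⟨p, hp⟩

/-- ZC-APX -/
theorem apx : S_APX := by
  intro l _ ρ y hy0 hy
  obtain ⟨p, hp⟩ := fixed_poly l ρ y hy
  set R : ℝ := ∑ i ∈ range (p.natDegree + 1), ‖ρ‖ ^ i with hR
  have hR0 : 0 ≤ R := sum_nonneg fun i _ => by positivity
  have hyp : 0 < ‖y‖ := norm_pos_iff.2 hy0
  have hδ : 0 < ‖y‖ / (R + 1) := by positivity
  choose r hr using fun i : ℕ => Padic.rat_dense l (p.coeff i) hδ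
  refine ⟨∑ i ∈ range (p.natDegree + 1), C (r i) * X ^ i, ?_⟩
  have e1 : aeval ρ (∑ i ∈ range (p.natDegree + 1), C (r i) * X ^ i) =
      ∑ i ∈ range (p.natDegree + 1), (algebraMap ℚ_[l] (Om l) (r i : ℚ_[l])) * ρ ^ i := by
    rw [map_sum]
    refine sum_congr rfl fun i _ => ?_
    rw [map_mul, aeval_C, map_pow, aeval_X]
    rw [map_ratCast, eq_ratCast]
  have e2 : y = ∑ i ∈ range (p.natDegree + 1), (algebraMap ℚ_[l] (Om l) (p.coeff i)) * ρ ^ i := by
    conv_lhs => rw [← hp, aeval_def, eval₂_eq_sum_range]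
  have e3 : aeval ρ (∑ i ∈ range (p.natDegree + 1), C (r i) * X ^ i) - y =
      ∑ i ∈ range (p.natDegree + 1), algebraMap ℚ_[l] (Om l) ((r i : ℚ_[l]) - p.coeff i) * ρ ^ i := by
    conv_lhs => rw [e1, e2]
    rw [← sum_sub_distrib]
    refine sum_congr rfl fun i _ => ?_
    rw [map_sub, sub_mul]
  rw [e3]
  calc ‖∑ i ∈ range (p.natDegree + 1), algebraMap ℚ_[l] (Om l) ((r i : ℚ_[l]) - p.coeff i) * ρ ^ i‖
      ≤ ∑ i ∈ range (p.natDegree + 1),
          ‖algebraMap ℚ_[l] (Om l) ((r i : ℚ_[l]) - p.coeff i) * ρ ^ i‖ := norm_sum_le _ _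
    _ ≤ ∑ i ∈ range (p.natDegree + 1), ‖y‖ / (R + 1) * ‖ρ‖ ^ i := by
        refine sum_le_sum fun i _ => ?_
        rw [norm_mul, norm_pow, norm_ext, norm_sub_rev]
        exact mul_le_mul_of_nonneg_right (hr i).le (by positivity)
    _ = ‖y‖ * (R / (R + 1)) := by rw [← mul_sum, ← hR]; ring
    _ < ‖y‖ := by
        refine mul_lt_of_lt_one_right hyp ?_
        rw [div_lt_one (by positivity)]
        linarith

end Pool.Agent.Q257.ZC
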