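import Pool.Agent.Q51.ZC.Stm2

/-! Project ZC, job EMB: components of the values. -/

set_option autoImplicit false

namespace Pool.Agent.Q257.ZC

open Polynomial Finset
open Pool.Agent.Q51.ZC
open Pool.Agent.Q51.SE (Alg cl Point IsValue IsUnitAt)

/-- ZC-EMB -/
theorem emb (h : S_NRM) : S_EMB := by
  classical
  intro f hf q m D l _ P A hA
  obtain ⟨b, ⟨hb1, z, hz⟩, rfl⟩ := hA
  obtain ⟨n1, n2⟩ := h f hf
  have hc : CharZero P.K := charZero_of_injective_algebraMap (algebraMap ℚ_[l] P.K).injective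
  refine ⟨z, fun τ ρ => ev f (τ : P.K →+* Om l) ρ b, ?_, ?_, ?_, ?_⟩
  · intro ρ hρ
    exact n1 ℚ_[l] P.K (Om l) ρ (isZ_of_mem hρ) b
  · intro τ ρ hρ
    have hZ := isZ_of_mem hρ
    refine ⟨ev_ne _ hZ b, ?_⟩
    have h1 := congrArg (ev f (τ : P.K →+* Om l) ρ) hb1
    rw [ev_mul _ hZ, ev_sub _ hZ, ev_cl _ hZ, ev_zero _ hZ] at h1
    have h2 : eval₂ (τ : P.K →+* Om l) ρ (C P.pt.x - C P.pt.w * X) = τ P.pt.x - ρ * τ P.pt.w := by
      rw [eval₂_sub, eval₂_C, eval₂_mul, eval₂_C, eval₂_X, mul_comm]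
      rfl
    rw [h2] at h1
    exact h1
  · intro τ
    have h1 := congrArg τ hz
    rw [map_mul, map_mul, map_pow, map_intCast, map_intCast] at h1
    rw [← h1]
    congr 1
    have h2 := n2 P.K (Om l) (τ : P.K →+* Om l) b
    have h3 : (τ : P.K →+* Om l) (Algebra.norm P.K (b : Alg f P.K)) = τ (Algebra.norm P.K (b : Alg f P.K)) := rfl
    rw [← h3, h2]
    unfold Rt
    congr
  · intro g τ ρ hρ
    have h1 := ev_comp (τ : P.K →+* Om l) (g : Om l →+* Om l) (isZ_of_mem hρ) (b : Alg f P.K)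
    exact h1

end Pool.Agent.Q257.ZC
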