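import Pool.Agent.Q51.ZC.Stm2

/-! Project ZC, job NRM: norms and evaluations. -/

set_option autoImplicit false

namespace Pool.Agent.Q257.ZC

open Polynomial Finset
open Pool.Agent.Q51.ZC
open Pool.Agent.Q51.SE (Alg cl)

/-- the norm of a free algebra, given homomorphisms with an invertible matrix -/
theorem key {A B E ι T : Type} [CommRing A] [CommRing B] [Algebra A B] [Field E] [Fintype ι]
    [DecidableEq ι] [Fintype T] (β : Module.Basis ι A B) (φ : A →+* E) (e : ι ≃ T) (ψ : T → (B →+* E))
    (hψ : ∀ t a, ψ t (algebraMap A B a) = φ a)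
    (hV : (Matrix.of fun i j => ψ (e i) (β j)).det ≠ 0) (b : B) :
    φ (Algebra.norm A b) = ∏ t, ψ t b := by
  set M := Algebra.leftMulMatrix β b with hM
  set V : Matrix ι ι E := Matrix.of fun i j => ψ (e i) (β j) with hVd
  have h1 : V * φ.mapMatrix M = Matrix.diagonal (fun i => ψ (e i) b) * V := by
    ext i j
    rw [Matrix.mul_apply, Matrix.diagonal_mul]
    have h2 : ∑ m, M m j • β m = b * β j := by
      have h3 := β.sum_repr (b * β j)
      rw [← h3]
      refine sum_congr rfl fun m _ => ?_
      rw [hM, Algebra.leftMulMatrix_eq_repr_mul]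
    calc ∑ m, V i m * φ.mapMatrix M m j = ψ (e i) (∑ m, M m j • β m) := by
          rw [map_sum]
          refine sum_congr rfl fun m _ => ?_
          rw [Algebra.smul_def, map_mul, hψ, mul_comm]
          rfl
      _ = _ := by rw [h2, map_mul]; rfl
  have h2 := congrArg Matrix.det h1
  rw [Matrix.det_mul, Matrix.det_mul, Matrix.det_diagonal, ← RingHom.map_det, mul_comm] at h2
  have h3 := mul_right_cancel₀ hV h2
  rw [Algebra.norm_eq_matrix_det β b, h3]
  exact e.prod_comp (fun t => ψ t b)

/-- the evaluation as a homomorphism -/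
theorem ex_hom {f : ℤ[X]} {F E : Type} [Field F] [Field E] (i : F →+* E) {ρ : E} (h : IsZ f ρ) :
    ∃ φ : Alg f F →+* E, (∀ A, ev f i ρ A = φ A) ∧ (∀ g : F[X], φ (cl f F g) = g.eval₂ i ρ) ∧
      (∀ c : F, φ (AdjoinRoot.of _ c) = i c) ∧ φ (AdjoinRoot.root _) = ρ := by
  obtain ⟨φ, h1, h2⟩ := ev_hom (F := F) i h
  refine ⟨φ, h1, h2, fun c => ?_, ?_⟩
  · have := h2 (C c)
    rw [eval₂_C] at this
    exact this
  · have := h2 X
    rw [eval₂_X] at this
    exact this

section two

variable (f : ℤ[X]) (hf : Irreducible (f.map (Int.castRingHom ℚ)))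

include hf in
theorem f_sep (E : Type) [Field E] [CharZero E] : (f.map (Int.castRingHom E)).Separable := by
  have h1 : (f.map (Int.castRingHom ℚ)).Separable := hf.separable
  have h2 := h1.map (f := algebraMap ℚ E)
  rw [Polynomial.map_map] at h2
  have h3 : (algebraMap ℚ E).comp (Int.castRingHom ℚ) = Int.castRingHom E := RingHom.ext_int _ _
  rw [h3] at h2
  exact h2

include hf in
theorem f_ne : f ≠ 0 := by
  rintro rfl
  rw [Polynomial.map_zero] at hf
  exact not_irreducible_zero hf

theorem f_deg (E : Type) [Field E] [CharZero E] : (f.map (Int.castRingHom E)).natDegree = f.natDegree :=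
  natDegree_map_eq_of_injective (RingHom.injective_int (Int.castRingHom E)) f

include hf in
theorem f_map_ne (E : Type) [Field E] [CharZero E] : f.map (Int.castRingHom E) ≠ 0 :=
  (Polynomial.map_ne_zero_iff (RingHom.injective_int (Int.castRingHom E))).2 (f_ne f hf)

include hf in
theorem part2 (F E : Type) [Field F] [Field E] [CharZero F] [IsAlgClosed E] [DecidableEq E]
    (i : F →+* E) (b : Alg f F) :
    i (Algebra.norm F b) = ∏ ρ ∈ (f.map (Int.castRingHom E)).roots.toFinset, ev f i ρ b := by
  classical
  have hE : CharZero E := charZero_of_injective_ringHom i.injective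
  have hF0 : f.map (Int.castRingHom F) ≠ 0 := f_map_ne f hf F
  have hE0 : f.map (Int.castRingHom E) ≠ 0 := f_map_ne f hf E
  set R := (f.map (Int.castRingHom E)).roots.toFinset with hR
  have hcard : R.card = f.natDegree := by
    rw [hR, Multiset.toFinset_card_of_nodup (nodup_roots (f_sep f hf E)), ← f_deg f E]
    exact (IsAlgClosed.splits _).natDegree_eq_card_roots.symm
  have hZ : ∀ ρ : R, IsZ f ρ.1 := by
    intro ρ
    have h1 : ρ.1 ∈ (f.map (Int.castRingHom E)).roots.toFinset := ρ.2
    rw [Multiset.mem_toFinset, mem_roots'] at h1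
    exact h1.2
  choose ψ h1 h2 h3 h4 using fun ρ : R => ex_hom (F := F) i (hZ ρ)
  let pb := AdjoinRoot.powerBasis hF0
  have hdim : pb.dim = f.natDegree := by
    rw [AdjoinRoot.powerBasis_dim, f_deg]
  have hc : Fintype.card (Fin pb.dim) = Fintype.card R := by
    rw [Fintype.card_fin, Fintype.card_coe, hdim, hcard]
  let e : Fin pb.dim ≃ R := Fintype.equivOfCardEq hc
  have h5 := key pb.basis i e ψ (fun t a => h3 t a) (by
    have h6 : (Matrix.of fun (x : Fin pb.dim) (y : Fin pb.dim) => ψ (e x) (pb.basis y)) =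
        Matrix.vandermonde (fun x => (e x).1) := by
      ext x y
      rw [Matrix.of_apply, Matrix.vandermonde_apply, pb.basis_eq_pow, map_pow]
      congr 1
      exact h4 (e x)
    rw [h6, Matrix.det_vandermonde_ne_zero_iff]
    intro x y hxy
    exact e.injective (Subtype.ext hxy)) b
  rw [h5, ← prod_coe_sort R]
  exact prod_congr rfl fun ρ _ => (h1 ρ b).symm

end two

section one

variable (f : ℤ[X]) (hf : Irreducible (f.map (Int.castRingHom ℚ)))
variable (k K : Type) [Field k] [Field K] [Algebra k K] [FiniteDimensional k K] [CharZero k]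

omit [FiniteDimensional k K] [CharZero k] in
theorem bas_of (c : k) : bas f k K (AdjoinRoot.of _ c) = AdjoinRoot.of _ (algebraMap k K c) := by
  unfold bas
  exact AdjoinRoot.map_of _ _ _ _ _

omit [FiniteDimensional k K] [CharZero k] in
theorem bas_root : bas f k K (AdjoinRoot.root _) = AdjoinRoot.root _ := by
  unfold bas
  exact AdjoinRoot.map_root _ _ _ _

/-- the map of the free module -/
noncomputable def Ph (a : Fin (Module.finrank k K) → Alg f k) : Alg f K :=
  ∑ j, bas f k K (a j) * AdjoinRoot.of _ (Module.finBasis k K j)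

theorem Ph_add (a b : Fin (Module.finrank k K) → Alg f k) :
    Ph f k K (a + b) = Ph f k K a + Ph f k K b := by
  unfold Ph
  rw [← sum_add_distrib]
  refine sum_congr rfl fun j _ => ?_
  rw [Pi.add_apply, map_add, add_mul]

theorem Ph_surj : Function.Surjective (Ph f k K) := by
  intro b
  obtain ⟨g, rfl⟩ := AdjoinRoot.mk_surjective b
  induction g using Polynomial.induction_on' with
  | add p q hp hq =>
    obtain ⟨a, ha⟩ := hp
    obtain ⟨b, hb⟩ := hq
    exact ⟨a + b, by rw [Ph_add, ha, hb, map_add]⟩
  | monomial n c =>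
    refine ⟨fun j => AdjoinRoot.of _ ((Module.finBasis k K).repr c j) * AdjoinRoot.root _ ^ n, ?_⟩
    have h1 : AdjoinRoot.mk (f.map (Int.castRingHom K)) (monomial n c) =
        AdjoinRoot.of _ c * AdjoinRoot.root _ ^ n := by
      rw [← C_mul_X_pow_eq_monomial, map_mul, map_pow, AdjoinRoot.mk_X, AdjoinRoot.mk_C]
    rw [h1]
    unfold Ph
    have h2 : ∀ j, bas f k K (AdjoinRoot.of _ ((Module.finBasis k K).repr c j) * AdjoinRoot.root _ ^ n) *
        AdjoinRoot.of _ (Module.finBasis k K j) =
        AdjoinRoot.of _ ((Module.finBasis k K).repr c j • Module.finBasis k K j) * AdjoinRoot.root _ ^ n := by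
      intro j
      rw [map_mul, map_pow, bas_of, bas_root, Algebra.smul_def, map_mul]
      ring
    rw [sum_congr rfl (fun j _ => h2 j), ← sum_mul, ← map_sum, (Module.finBasis k K).sum_repr]

/-- as a linear map over the small field -/
noncomputable def Phk : (Fin (Module.finrank k K) → Alg f k) →ₗ[k] Alg f K where
  toFun := Ph f k K
  map_add' := Ph_add f k K
  map_smul' := by
    intro c a
    rw [RingHom.id_apply]
    unfold Ph
    rw [Finset.smul_sum]
    refine sum_congr rfl fun j _ => ?_
    have h1 : (c • a) j = AdjoinRoot.of _ c * a j := by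
      rw [Pi.smul_apply, Algebra.smul_def]
      rfl
    have h2 : ∀ x : Alg f K, c • x = AdjoinRoot.of _ (algebraMap k K c) * x := by
      intro x
      rw [Algebra.smul_def]
      rfl
    rw [h1, h2, map_mul, bas_of, mul_assoc]

include hf in
theorem Ph_inj : Function.Injective (Ph f k K) := by
  have hK : CharZero K := charZero_of_injective_algebraMap (algebraMap k K).injective
  have hk0 := f_map_ne f hf k
  have hK0 := f_map_ne f hf K
  have f1 : Module.Finite k (Alg f k) := (AdjoinRoot.powerBasis hk0).finite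
  have f2 : Module.Finite K (Alg f K) := (AdjoinRoot.powerBasis hK0).finite
  have f3 : Module.Finite k (Alg f K) := Module.Finite.trans K (Alg f K)
  have d1 : Module.finrank k (Alg f k) = f.natDegree := by
    rw [(AdjoinRoot.powerBasis hk0).finrank, AdjoinRoot.powerBasis_dim, f_deg]
  have d2 : Module.finrank K (Alg f K) = f.natDegree := by
    rw [(AdjoinRoot.powerBasis hK0).finrank, AdjoinRoot.powerBasis_dim, f_deg]
  have d3 : Module.finrank k (Fin (Module.finrank k K) → Alg f k) = Module.finrank k (Alg f K) := by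
    rw [Module.finrank_pi_fintype, sum_const, card_univ, Fintype.card_fin, smul_eq_mul, d1,
      ← Module.finrank_mul_finrank k K (Alg f K), d2]
  have h := (LinearMap.injective_iff_surjective_of_finrank_eq_finrank d3 (f := Phk f k K)).2
    (Ph_surj f k K)
  exact h

include hf in
theorem part1 (E : Type) [Field E] [Algebra k E] [IsAlgClosed E] (ρ : E) (hρ : IsZ f ρ)
    (b : Alg f K) :
    ev f (algebraMap k E) ρ (nrm f k K b) = ∏ τ : K →ₐ[k] E, ev f (τ : K →+* E) ρ b := by
  classical
  let alg : Algebra (Alg f k) (Alg f K) := (bas f k K).toAlgebra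
  have hsep : Algebra.IsSeparable k K := Algebra.IsAlgebraic.isSeparable_of_perfectField
  let Pl : (Fin (Module.finrank k K) → Alg f k) →ₗ[Alg f k] Alg f K :=
    { toFun := Ph f k K
      map_add' := Ph_add f k K
      map_smul' := by
        intro c a
        rw [RingHom.id_apply]
        have e9 : c • Ph f k K a = bas f k K c * Ph f k K a := rfl
        rw [e9]
        unfold Ph
        rw [Finset.mul_sum]
        refine sum_congr rfl fun j _ => ?_
        rw [Pi.smul_apply, smul_eq_mul, map_mul, mul_assoc] }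
  let e0 : (Fin (Module.finrank k K) → Alg f k) ≃ₗ[Alg f k] Alg f K :=
    LinearEquiv.ofBijective Pl ⟨Ph_inj f hf k K, Ph_surj f k K⟩
  let β : Module.Basis (Fin (Module.finrank k K)) (Alg f k) (Alg f K) := Module.Basis.ofEquivFun e0.symm
  have hβ : ∀ j, β j = AdjoinRoot.of _ (Module.finBasis k K j) := by
    intro j
    have h1 : β j = Ph f k K (Pi.single j 1) := by
      rw [Module.Basis.coe_ofEquivFun]
      rfl
    rw [h1]
    unfold Ph
    rw [sum_eq_single j]
    · rw [Pi.single_eq_same, map_one, one_mul]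
    · intro m _ hm
      rw [Pi.single_eq_of_ne hm, map_zero, zero_mul]
    · intro h
      exact absurd (mem_univ j) h
  obtain ⟨φ, p1, p2, p3, p4⟩ := ex_hom (F := k) (algebraMap k E) hρ
  choose ψ h1 h2 h3 h4 using fun τ : K →ₐ[k] E => ex_hom (F := K) (τ : K →+* E) hρ
  have hc : Fintype.card (Fin (Module.finrank k K)) = Fintype.card (K →ₐ[k] E) := by
    rw [Fintype.card_fin, AlgHom.card k K E]
  let e : Fin (Module.finrank k K) ≃ (K →ₐ[k] E) := Fintype.equivOfCardEq hc
  have h5 := key β φ e ψ (fun τ a => by
    obtain ⟨g, rfl⟩ := AdjoinRoot.mk_surjective a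
    have e1 : algebraMap (Alg f k) (Alg f K) (AdjoinRoot.mk _ g) = cl f K (g.map (algebraMap k K)) := by
      show bas f k K (AdjoinRoot.mk _ g) = AdjoinRoot.mk _ (g.map (algebraMap k K))
      induction g using Polynomial.induction_on' with
      | add p q hp hq => rw [map_add, map_add, hp, hq, Polynomial.map_add, map_add]
      | monomial n c =>
        rw [← C_mul_X_pow_eq_monomial, map_mul, map_pow, AdjoinRoot.mk_X, AdjoinRoot.mk_C, map_mul,
          map_pow, bas_of, bas_root, Polynomial.map_mul, Polynomial.map_pow, Polynomial.map_C,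
          Polynomial.map_X, map_mul, map_pow, AdjoinRoot.mk_X, AdjoinRoot.mk_C]
    rw [e1, h2]
    have e2 : AdjoinRoot.mk (f.map (Int.castRingHom k)) g = cl f k g := rfl
    rw [e2, p2, eval₂_map]
    congr 1
    ext c
    simp) (by
    have h6 : (Matrix.of fun x y => ψ (e x) (β y)) =
        (Algebra.embeddingsMatrixReindex k E (Module.finBasis k K) e).transpose := by
      ext x y
      rw [Matrix.of_apply, Matrix.transpose_apply, hβ, h3]
      rfl
    rw [h6, Matrix.det_transpose]
    intro h7
    have h8 := Algebra.discr_eq_det_embeddingsMatrixReindex_pow_two k E (Module.finBasis k K) e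
    rw [h7, zero_pow two_ne_zero, map_eq_zero] at h8
    exact Algebra.discr_not_zero_of_basis k (Module.finBasis k K) h8) b
  rw [p1]
  refine Eq.trans ?_ (h5.trans (prod_congr rfl fun τ _ => (h1 τ b).symm))
  rfl

end one

/-- ZC-NRM -/
theorem nrm_ev : S_NRM := by
  classical
  intro f hf
  refine ⟨fun k K E _ _ _ _ _ _ _ _ ρ hρ b => part1 f hf k K E ρ hρ b,
    fun F E _ _ _ _ i b => ?_⟩
  have h := part2 f hf F E i b
  rw [h]

end Pool.Agent.Q257.ZC
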