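import Pool.Agent.Q51.ZC.Stm2

/-! Project ZC, jobs TRN and QDV: conjugate embeddings; divisibility of the ramification index. -/

set_option autoImplicit false

namespace Pool.Agent.Q257.ZC

open Polynomial Finset
open Pool.Agent.Q51.ZC

/-- ZC-TRN -/
theorem trn : S_TRN := by
  intro l _ K _ _ _
  have : CharZero K := charZero_of_injective_algebraMap (algebraMap ℚ_[l] K).injective
  have : Algebra.IsSeparable ℚ_[l] K := Algebra.IsAlgebraic.isSeparable_of_perfectField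
  have : Normal ℚ_[l] (Om l) := IsAlgClosure.normal ℚ_[l] (Om l)
  refine ⟨fun τ τ' => ?_, AlgHom.card ℚ_[l] K (Om l), Module.finrank_pos, fun x => ?_⟩
  · let pb := Field.powerBasisOfFiniteOfSeparable ℚ_[l] K
    have h1 : IsAlgebraic ℚ_[l] (τ pb.gen) := Algebra.IsAlgebraic.isAlgebraic _
    have h2 : minpoly ℚ_[l] (τ pb.gen) = minpoly ℚ_[l] pb.gen :=
      minpoly.algHom_eq τ τ.injective pb.gen
    have h3 : aeval (τ' pb.gen) (minpoly ℚ_[l] (τ pb.gen)) = 0 := by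
      rw [h2, aeval_algHom_apply, minpoly.aeval, map_zero]
    obtain ⟨g, hg⟩ := minpoly.exists_algEquiv_of_root' h1 h3
    refine ⟨g, ?_⟩
    apply pb.algHom_ext
    exact hg.symm
  · exact Algebra.norm_eq_prod_embeddings ℚ_[l] (Om l) x

/-- ZC-QDV -/
theorem qdv (h1 : S_UNR) (h2 : S_TRN) : S_QDV := by
  classical
  intro l _ K _ _ _ Φ hΦ hΦ1 hΦ2 q y k hq hk hy T
  obtain ⟨-, -, -, -⟩ := h2 l K
  set S := univ.filter (fun τ : K →ₐ[ℚ_[l]] Om l => Φ τ = T) with hS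
  have hS' : S = (univ.filter (fun τ : K →ₐ[ℚ_[l]] Om l => Φ τ = T)) := hS
  suffices q ∣ S.card by convert this
  rcases S.eq_empty_or_nonempty with h0 | ⟨τ0, hτ0⟩
  · rw [h0, card_empty]
    exact dvd_zero q
  have hT0 : Φ τ0 = T := (mem_filter.1 hτ0).2
  have hl1 : (1 : ℝ) < l := by exact_mod_cast (Fact.out : l.Prime).one_lt
  have hl0 : (0 : ℝ) < l := by linarith
  have hq0 : q ≠ 0 := hq.ne_zero
  have hne : ∀ τ : K →ₐ[ℚ_[l]] Om l, τ y ≠ 0 := by
    intro τ h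
    have h3 := hy τ
    rw [h, norm_zero, zero_pow hq0] at h3
    exact (zpow_pos hl0 k).ne h3
  set Y := ∏ τ ∈ S, τ y with hY
  have hY0 : Y ≠ 0 := prod_ne_zero_iff.2 fun τ _ => hne τ
  obtain ⟨j, hj⟩ := h1 l T (by rw [← hT0]; exact hΦ1 τ0) (fun g hg => by
      rw [← hT0, ← hΦ] at hg ⊢
      exact hΦ2 _ _ hg) Y hY0 (fun g hg => by
      rw [hY, map_prod]
      refine prod_bij' (fun τ _ => (g : Om l →ₐ[ℚ_[l]] Om l).comp τ)
        (fun τ _ => (g.symm : Om l →ₐ[ℚ_[l]] Om l).comp τ) ?_ ?_ ?_ ?_ ?_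
      · intro τ hτ
        rw [hS, mem_filter] at hτ ⊢
        exact ⟨mem_univ _, by rw [hΦ, hτ.2, hg]⟩
      · intro τ hτ
        rw [hS, mem_filter] at hτ ⊢
        refine ⟨mem_univ _, ?_⟩
        rw [hΦ, hτ.2]
        rw [AlgEquiv.symm_apply_eq, hg]
      · intro τ _
        ext x
        simp
      · intro τ _
        ext x
        simp
      · intro τ _
        rfl)
  have h3 : ‖Y‖ ^ q = (l : ℝ) ^ (k * (S.card : ℤ)) := by
    rw [hY, norm_prod, ← prod_pow, prod_congr rfl (fun τ _ => hy τ), prod_const, zpow_mul,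
      zpow_natCast]
  rw [hj, ← zpow_natCast, ← zpow_mul] at h3
  have h4 : j * (q : ℤ) = k * (S.card : ℤ) := zpow_right_injective₀ hl0 hl1.ne' h3
  have h5 : (q : ℤ) ∣ k * (S.card : ℤ) := ⟨j, by rw [← h4, mul_comm]⟩
  have h6 : (q : ℤ) ∣ (S.card : ℤ) :=
    ((Nat.prime_iff_prime_int.1 hq).dvd_or_dvd h5).resolve_left hk
  exact_mod_cast h6

end Pool.Agent.Q257.ZC
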